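import Mathlib
import Pool.Agent.Lib.MP_ff3579_an.MainPart

/-!
Interface of project X (MP_ff3579_an): `Zp N` is irreducible for EVERY `N ≥ 2`, hence the degree of
`C(n,2)^2` is exactly `⌊(n+1)/2⌋` for every `n ≥ 1`, and `C(n,2)` is expressible by radicals if and
only if `n ≤ 8`.  See `Paper.md` in this folder for the proofs of all modules.
-/

set_option autoImplicit false

open Polynomial

namespace Pool.Agent.Lib.MP_ff3579_an.X

open Pool.Agent.Lib.MP_ff3579_an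

/-- a prime power dividing a number `x` of the window `N - 2k < x ≤ N + 2k` which excludes
factors of degree `k` of `Zp N` -/
def Good (N k : ℕ) : Prop := ∃ p x B : ℕ, p.Prime ∧ 8 * k ≤ p + 2 ∧ N < x + 2 * k ∧
  x ≤ N + 2 * k ∧ 1 ≤ B ∧ p ^ B ∣ x ∧
  (2 * k * (2 + Nat.log p (2 * N)) ≤ p ∨ 4 * k * (1 + Nat.log p (2 * N)) < p ^ B)

/-- a large prime dividing `N - b`, `0 ≤ b ≤ k` -/
def Large (N k : ℕ) : Prop := ∃ p b : ℕ, p.Prime ∧ 2 * k + 2 ≤ p ∧ 2 * N < p ^ 2 ∧ b ≤ k ∧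
  p ∣ N - b

/-- the primes `≥ 8 k - 2` which may fail to be good -/
noncomputable def badSet (N k : ℕ) : Finset ℕ :=
  (Finset.range (2 * k * (2 + Nat.log 2 (2 * N)))).filter
    (fun p => p.Prime ∧ 8 * k ≤ p + 2 ∧ p < 2 * k * (2 + Nat.log p (2 * N)))

/-- the largest prime power which a bad prime can contribute -/
def fac (N k p : ℕ) : ℕ :=
  if p ^ 2 ≤ 4 * k * (1 + Nat.log p (2 * N)) then 4 * k * (1 + Nat.log p (2 * N)) else p

/-- the binomial coefficient is larger than all bad prime powers together -/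
def Win (N k : ℕ) : Prop :=
  (N + 2 * k) ^ (Nat.primesBelow (8 * k - 2)).card * ∏ p ∈ badSet N k, fac N k p <
    (N + 2 * k).choose (4 * k)

/-- beginning of the tail -/
def T (k : ℕ) : ℕ := if k ≤ 2 then 2 ^ 7800 else (8 * k - 2) ^ 100

/-- module SLP: a good prime power excludes factors of degree `k` -/
def SlpStatement : Prop := ∀ (N k : ℕ) (A B : ℤ[X]), 1 ≤ k → Good N k ∨ Large N k →
  A * B = Zp N → A.Monic → B.Monic → A.natDegree = k → False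

/-- module CNT -/
def CntStatement : Prop := ∀ N k : ℕ, 1 ≤ k → 8 * k ≤ N → Win N k → Good N k

/-- module BOX: `k < 30` -/
def BoxStatement : Prop := ∀ N k : ℕ, 1 ≤ k → k < 30 → 25000 ≤ N → 2 * N < T k → Win N k

/-- module PI2 -/
def Pi2Statement : Prop :=
  (∀ k : ℕ, 15 ≤ k → (Nat.primesBelow (8 * k - 2)).card ≤ 2 * k) ∧
  (∀ k : ℕ, 1 ≤ k → (Nat.primesBelow (8 * k - 2)).card ≤ 2 * k + 2) ∧
  (Nat.primesBelow (8 * 1 - 2)).card = 3 ∧ (Nat.primesBelow (8 * 2 - 2)).card = 6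

/-- module MID -/
def MidStatement : Prop := ∀ N k : ℕ, 30 ≤ k → 4 * k ^ 2 ≤ N → 2 * N < (8 * k - 2) ^ 100 → Win N k

/-- module BAD: a general bound for the bad part -/
def BadStatement : Prop := ∀ N k P : ℕ, 1 ≤ k → 1 ≤ N → 8 * k ≤ P + 2 →
  ∏ p ∈ badSet N k, fac N k p ≤ 4 ^ max P (2 * k * (2 + Nat.log P (2 * N))) *
    (4 * k * (1 + Nat.log (8 * k - 2) (2 * N))) ^
      Nat.sqrt (4 * k * (1 + Nat.log (8 * k - 2) (2 * N)))

/-- module TLA: the tail for `k ≥ 3` -/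
def TlaStatement : Prop := ∀ N k : ℕ, 3 ≤ k → T k ≤ 2 * N → Win N k

/-- module TLB: the tail for `k = 1, 2` -/
def TlbStatement : Prop := ∀ N k : ℕ, 1 ≤ k → k ≤ 2 → T k ≤ 2 * N → Win N k

/-- module PST -/
def PstStatement : Prop := ∀ n : ℕ, 25000 ≤ n →
  Chebyshev.psi n - Chebyshev.theta n ≤ 3.2 * √(n : ℝ)

/-- module THW -/
def ThwStatement : Prop := ∀ N k : ℕ, 25000 ≤ N → N ≤ 4 * k ^ 2 → 60 * k ≤ N → Good N k

/-- module THL -/
def ThlStatement : Prop := ∀ N k : ℕ, 25000 ≤ N → N ≤ 60 * k → 20 * k ≤ N → Large N k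

/-- module NPX -/
def NpxStatement : Prop := ∀ N : ℕ, 10 ^ 6 ≤ N → ∃ p, p.Prime ∧ 9 * N ≤ 10 * p ∧ 10 * p ≤ 11 * N

/-- module NPL -/
def NplStatement : Prop := ∀ N : ℕ, 25000 ≤ N → N < 10 ^ 6 →
  ∃ p, p.Prime ∧ 9 * N ≤ 10 * p ∧ 10 * p ≤ 11 * N

/-- a prime close to `N` -/
def Near (N k : ℕ) : Prop := ∃ p : ℕ, p.Prime ∧ 3 ≤ p ∧
  ((p ≤ N ∧ 2 * N < 3 * p ∧ (N - p) / 2 < k) ∨ (N < p ∧ p < 2 * N ∧ (p - N - 1) / 2 < k))

/-- module SML: the finite check -/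
def SmlStatement : Prop := ∀ N k : ℕ, 4 ≤ N → N < 25000 → 1 ≤ k → 4 * k ≤ N → Near N k ∨ Good N k

/-- module NSV -/
def NsvStatement : Prop := ∀ N : ℕ, 10 ≤ N → N < 33 → Irreducible (Zp N) →
  ¬ Group.IsSolvable ((Zp N).map (Int.castRingHom ℚ)).Gal

/-- module SOL -/
def SolStatement : Prop := ∀ n : ℕ, 1 ≤ n → n ≤ 8 → ((markovConst n 2 : ℝ) : ℂ) ∈ solvableByRad ℚ ℂ

end Pool.Agent.Lib.MP_ff3579_an.X
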