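import Pool.Agent.Lib.MP_ff3579_an.X.H78.Main
import Pool.Agent.Lib.MP_ff3579_an.X.H05.Nsv
import Pool.Agent.Lib.MP_ff3579_an.X.H05.Pi2
import Pool.Agent.Lib.MP_ff3579_an.X.H16.Npl
import Pool.Agent.Lib.MP_ff3579_an.X.H38.Thl
import Pool.Agent.Lib.MP_ff3579_an.X.H38.Thw
import Pool.Agent.Lib.MP_ff3579_an.X.H51.Tla
import Pool.Agent.Lib.MP_ff3579_an.X.H51.Tlb
import Pool.Agent.Lib.MP_ff3579_an.X.H58.Sml
import Pool.Agent.Lib.MP_ff3579_an.X.H61.Mid
import Pool.Agent.Lib.MP_ff3579_an.X.H61.Npx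
import Pool.Agent.Lib.MP_ff3579_an.X.H63.Cnt
import Pool.Agent.Lib.MP_ff3579_an.X.H63.Pst
import Pool.Agent.Lib.MP_ff3579_an.X.H98.Bad
import Pool.Agent.Lib.MP_ff3579_an.X.H98.Box

/-! The complete theorem on the sharp `L_2` Markov constant, for every degree. -/

set_option autoImplicit false

namespace Pool.Agent.Lib.MP_ff3579_an.X

open Pool.Agent.Lib.MP_ff3579_an

/-- All the polynomials `Zp N` are irreducible over the integers. -/
theorem irreducible_Zp : ∀ N, 2 ≤ N → Irreducible (Zp N) :=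
  H78.irreducible_all H63.cnt H98.box (H61.mid H05.pi2) (H51.tla H05.pi2 H98.bad)
    (H51.tlb H05.pi2 H98.bad) (H38.thw H63.pst) (H38.thl H63.pst) (H61.npx H63.pst)
    H16.npl H58.sml

theorem final (n : ℕ) (hn : 1 ≤ n) :
    (minpoly ℚ (markovConst n 2 ^ 2)).natDegree = (n + 1) / 2 ∧
    (((markovConst n 2 : ℝ) : ℂ) ∈ solvableByRad ℚ ℂ ↔ n ≤ 8) :=
  H78.final_of irreducible_Zp H05.nsv n hn

end Pool.Agent.Lib.MP_ff3579_an.X
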